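import Mathlib
import Pool.Agent.H97.Dch

namespace Pool.Agent.Results.MP_8cea72_an.Counter

open Set Filter Topology MeasureTheory Pool.Agent.H97.Dch

/-- The lower `f`-density of `A`, in `[0, ∞]`. -/
noncomputable def lowerDens (f : ℝ → ℝ) (A : Set ℝ) : ENNReal :=
  liminf (fun t : ℝ => volume (A ∩ Icc 0 (f t)) / ENNReal.ofReal t) atTop

/-- `f`-distributional chaos of a family `T`. -/
def Chaotic {E : Type} [MetricSpace E] (T : ℝ → E → E) (f : ℝ → ℝ) : Prop :=
  ∃ S : Set E, ¬ S.Countable ∧ ∃ σ > (0:ℝ), ∀ ε > (0:ℝ), ∀ x ∈ S, ∀ y ∈ S, x ≠ y →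
    lowerDens f {t | 0 ≤ t ∧ dist (T t x) (T t y) < σ} = 0 ∧
    lowerDens f {t | 0 ≤ t ∧ ε ≤ dist (T t x) (T t y)} = 0

theorem aux {A : Set ℝ} {a t : ℝ} (hn : 0 < t) (h : A ⊆ Icc 0 a) :
    volume A / ENNReal.ofReal t ≤ ENNReal.ofReal (a / t) := by
  rw [ENNReal.ofReal_div_of_pos hn]
  gcongr
  simpa using measure_mono (μ := volume) h

theorem result (𝕜 : Type) [RCLike 𝕜] :
    ∃ (E : Type) (_ : NormedAddCommGroup E) (_ : NormedSpace 𝕜 E) (_ : CompleteSpace E)
      (T : ℝ → E →L[𝕜] E) (f : ℝ → ℝ), T 0 = ContinuousLinearMap.id 𝕜 E ∧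
      (∀ s t, T (s + t) = (T s).comp (T t)) ∧ (∀ x, Continuous fun t => T t x) ∧
      StrictMono f ∧ (∀ t, 0 ≤ t → 1 ≤ f t) ∧ (∀ t, t ≤ f t) ∧
      (∃ X₀ : Submodule 𝕜 E, Dense (X₀ : Set E) ∧
        ∀ x ∈ X₀, Tendsto (fun t => T t x) atTop (𝓝 0)) ∧
      Chaotic (fun t => T t) (fun t => 1 + t) ∧ ¬ Chaotic (fun t => T t) f := by
  refine ⟨X 𝕜, inferInstance, inferInstance, inferInstance, T 𝕜, fun t => 2 * B (⌊t⌋₊ + 1) + t,
    T_zero, T_add, T_cont, fun a b h => ?_, fun t ht => by linarith [B_one (⌊t⌋₊ + 1)],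
    fun t => by linarith [B_one (⌊t⌋₊ + 1)], dense_null, ?_, ?_⟩
  · have : (B (⌊a⌋₊ + 1) : ℝ) ≤ B (⌊b⌋₊ + 1) := by
      exact_mod_cast B_strictMono.monotone (Nat.succ_le_succ (Nat.floor_mono h.le))
    simp only
    linarith
  · obtain ⟨x, h1, h2⟩ := irregular (𝕜 := 𝕜)
    have hx : x ≠ 0 := by
      rintro rfl
      obtain ⟨k, hk⟩ := (h2 1).exists
      have := hk (8 ^ k * B k) (by gcongr; norm_num) le_rfl
      norm_num at this
    refine ⟨_, unc hx, 1, one_pos, ?_⟩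
    rintro ε hε _ ⟨a, rfl⟩ _ ⟨b, rfl⟩ hab
    have hc : 0 < ‖a - b‖ := norm_pos_iff.2 (sub_ne_zero.2 fun h => hab (by rw [h]))
    simp only [dist_eq]
    constructor
    · have hN : ∀ k : ℕ, (k : ℝ) ≤ 8 ^ k * B k := fun k =>
        (le_B k).trans (le_mul_of_one_le_left (by positivity) (one_le_pow₀ (by norm_num)))
      refine lim0 _ (fun k => 8 ^ k * B k - 1) (tendsto_atTop_add_const_right _ (-1)
        (tendsto_atTop_mono hN tendsto_natCast_atTop_atTop)) (fun k => 2 * (1 / 2) ^ k)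
        (by simpa using (tendsto_pow_atTop_nhds_zero_of_lt_one (r := (1 / 2 : ℝ)) (by norm_num)
          (by norm_num)).const_mul 2) ?_
      filter_upwards [h2 (1 / ‖a - b‖), eventually_ge_atTop 2] with k hk h2k
      have h3 : (2:ℝ) ≤ 8 ^ k * B k := le_trans (by exact_mod_cast h2k) (hN k)
      refine (aux (a := 4 ^ k * B k) (by linarith) ?_).trans (ENNReal.ofReal_le_ofReal ?_)
      · rintro j ⟨⟨a0, a1⟩, -, a2⟩
        refine ⟨a0, ?_⟩
        by_contra h
        have := hk j (not_le.1 h).le (by linarith)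
        rw [div_le_iff₀' hc] at this
        exact absurd a1 (not_lt.2 this)
      · rw [div_le_iff₀ (by linarith)]
        have e : (4:ℝ) ^ k * B k = (1 / 2) ^ k * (8 ^ k * B k) := by
          rw [← mul_assoc, ← mul_pow]; norm_num
        have : (0:ℝ) < (1 / 2) ^ k := by positivity
        rw [e]; nlinarith
    · have hN : ∀ k : ℕ, (k : ℝ) ≤ (k + 1) * B (k + 1) - 1 := fun k => by
        have := B_one (k + 1); have := Nat.cast_nonneg (α := ℝ) k; nlinarith
      refine lim0 _ (fun k => (k + 1) * B (k + 1) - 1)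
        (tendsto_atTop_mono hN tendsto_natCast_atTop_atTop) _ tendsto_one_div_atTop_nhds_zero_nat ?_
      filter_upwards [h1 (ε / ‖a - b‖) (by positivity), eventually_ge_atTop 1] with k hk h1k
      have h3 : (1:ℝ) ≤ k := by exact_mod_cast h1k
      have hB := B_one (k + 1)
      refine (aux (a := B (k + 1)) (by linarith [hN k]) ?_).trans (ENNReal.ofReal_le_ofReal ?_)
      · rintro j ⟨⟨a0, a1⟩, -, a2⟩
        refine ⟨a0, ?_⟩
        by_contra h
        have := hk j (not_le.1 h).le (by linarith)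
        rw [lt_div_iff₀' hc] at this
        exact absurd a1 (not_le.2 this)
      · rw [div_le_div_iff₀ (by linarith [hN k]) (by linarith)]
        nlinarith
  · rintro ⟨S, hS, σ, hσ, h⟩
    obtain ⟨x, hx, y, hy, hxy⟩ : S.Nontrivial :=
      not_subsingleton_iff.1 fun h => hS h.countable
    have h1 := (h 1 one_pos x hx y hy hxy).1
    refine absurd h1 (lt_of_lt_of_le one_pos (le_liminf_of_le (by isBoundedDefault) ?_)).ne'
    filter_upwards [tendsto_nat_floor_atTop.eventually (win_all hσ (x - y)),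
      eventually_gt_atTop 0] with t hn h0
    rw [ENNReal.le_div_iff_mul_le (Or.inl (by simpa using h0)) (Or.inl (by simp)), one_mul]
    have hB := B_one (⌊t⌋₊ + 1)
    refine le_trans ?_ (measure_mono (s := Icc (B (⌊t⌋₊ + 1) : ℝ) (2 * B (⌊t⌋₊ + 1))) ?_)
    · rw [Real.volume_Icc]
      refine ENNReal.ofReal_le_ofReal ?_
      have := le_B (⌊t⌋₊ + 1)
      push_cast at this
      linarith [Nat.lt_floor_add_one t]
    · intro j hj
      refine ⟨⟨by linarith [hj.1], ?_⟩, by linarith [hj.1], by linarith [hj.2]⟩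
      rw [dist_eq_norm, ← map_sub]
      exact hn j hj.1 hj.2

end Pool.Agent.Results.MP_8cea72_an.Counter
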